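import Mathlib

/-!
# A graceful bipartite graph without a near alpha-valuation

The graph is `K_{5,5}` minus a perfect matching.  It has `20` edges and every degree is `4`.
A near alpha-valuation would express the sum `1 + ... + 20 = 210` of the edge labels as
`∑ ± deg v * b v`, a multiple of `4`, which `210` is not.
-/

namespace Pool.Agent.Results.MP_cfde94_co.GracefulNotNearAlpha

open Finset

/-- The label `|b u - b v|` of the edge `uv` induced by the vertex labelling `b`. -/
def edgeLabel {V : Type*} (b : V → ℕ) : Sym2 V → ℕ :=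
  Sym2.lift ⟨fun u v => Nat.dist (b u) (b v), fun u v => Nat.dist_comm (b u) (b v)⟩

/-- `b` is a beta-valuation (graceful labelling) of the graph `G` with `n` edges:
`b` is injective, its values lie in `{0, ..., n}`, and the edge labels are exactly the numbers
`1, ..., n`, each occurring once. -/
def IsBetaValuation {V : Type*} (G : SimpleGraph V) (b : V → ℕ) : Prop :=
  Function.Injective b ∧ (∀ v, b v ≤ G.edgeSet.ncard) ∧
    Set.BijOn (edgeLabel b) G.edgeSet (Set.Icc 1 G.edgeSet.ncard)

/-- `b` is a near alpha-valuation of `G`: it is a beta-valuation and the vertex set splits as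
`small ∪ smallᶜ`, each vertex of `small` having a label smaller than those of all its
neighbours, each vertex of the complement a label larger than those of all its neighbours. -/
def IsNearAlphaValuation {V : Type*} (G : SimpleGraph V) (b : V → ℕ) : Prop :=
  IsBetaValuation G b ∧ ∃ small : Set V,
    (∀ v ∈ small, ∀ u, G.Adj v u → b v < b u) ∧
    (∀ v ∉ small, ∀ u, G.Adj v u → b u < b v)

/-- Double counting: the signed degree sum of the vertex labels is the sum of the edge labels. -/
theorem sum_edgeLabel {V : Type*} [Fintype V] [DecidableEq V] (G : SimpleGraph V)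
    [DecidableRel G.Adj] (b : V → ℕ) (small : Set V) [DecidablePred (· ∈ small)]
    (h1 : ∀ v ∈ small, ∀ u, G.Adj v u → b v < b u)
    (h2 : ∀ v ∉ small, ∀ u, G.Adj v u → b u < b v) :
    ∑ e ∈ G.edgeFinset, (edgeLabel b e : ℤ) =
      ∑ v, (G.degree v : ℤ) * (if v ∈ small then -(b v : ℤ) else (b v : ℤ)) := by
  set g : V → ℤ := fun v => if v ∈ small then -(b v : ℤ) else (b v : ℤ) with hg
  have key : ∀ e ∈ G.edgeFinset, (edgeLabel b e : ℤ) = ∑ v ∈ e.toFinset, g v := by
    intro e he
    induction e using Sym2.ind with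
    | _ u v =>
      have hadj : G.Adj u v := by simpa using he
      have hne : u ≠ v := hadj.ne
      rw [Sym2.toFinset_mk_eq, Finset.sum_pair hne]
      simp only [edgeLabel, Sym2.lift_mk, hg]
      by_cases hu : u ∈ small
      · have hlt := h1 u hu v hadj
        have hv : v ∉ small := fun hv => absurd (h1 v hv u hadj.symm) (by omega)
        simp only [hu, hv, if_true, if_false, Nat.dist]
        omega
      · have hlt := h2 u hu v hadj
        have hv : v ∈ small := by
          by_contra hv
          exact absurd (h2 v hv u hadj.symm) (by omega)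
        simp only [hu, hv, if_true, if_false, Nat.dist]
        omega
  rw [Finset.sum_congr rfl key]
  have swap : ∑ e ∈ G.edgeFinset, ∑ v ∈ e.toFinset, g v =
      ∑ v ∈ (Finset.univ : Finset V), ∑ e ∈ G.incidenceFinset v, g v := by
    refine Finset.sum_comm' ?_
    intro e v
    simp only [SimpleGraph.mem_edgeFinset, Sym2.mem_toFinset, Finset.mem_univ, and_true,
      SimpleGraph.mem_incidenceFinset, SimpleGraph.incidenceSet, Set.mem_sep_iff]
  rw [swap]
  refine Finset.sum_congr rfl fun v _ => ?_
  rw [Finset.sum_const, SimpleGraph.card_incidenceFinset_eq_degree, nsmul_eq_mul]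

/-- If all degrees are divisible by `4` and there are `20` edges then there is no near
alpha-valuation. -/
theorem no_nearAlpha {V : Type*} [Fintype V] [DecidableEq V] (G : SimpleGraph V)
    [DecidableRel G.Adj] (hdeg : ∀ v, 4 ∣ G.degree v) (hcard : G.edgeFinset.card = 20) :
    ¬ ∃ b : V → ℕ, IsNearAlphaValuation G b := by
  rintro ⟨b, ⟨-, -, hbij⟩, small, h1, h2⟩
  classical
  have hsum := sum_edgeLabel G b small h1 h2
  have hn : G.edgeSet.ncard = 20 := by
    rw [← SimpleGraph.coe_edgeFinset, Set.ncard_coe_finset, hcard]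
  rw [hn] at hbij
  have hlhs : ∑ e ∈ G.edgeFinset, (edgeLabel b e : ℤ) = ∑ k ∈ Finset.Icc (1 : ℕ) 20, (k : ℤ) := by
    refine Finset.sum_nbij (edgeLabel b) ?_ ?_ ?_ ?_
    · intro e he
      have := hbij.mapsTo (SimpleGraph.mem_edgeFinset.mp he)
      simpa using this
    · intro e he e' he' h
      exact hbij.injOn (by simpa using he) (by simpa using he') h
    · intro k hk
      obtain ⟨e, he, hek⟩ := hbij.surjOn (show k ∈ Set.Icc 1 20 by simpa using hk)
      exact ⟨e, by simpa using he, hek⟩
    · intro e _
      rfl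
  have hval : ∑ k ∈ Finset.Icc (1 : ℕ) 20, (k : ℤ) = 210 := by decide +kernel
  rw [hlhs, hval] at hsum
  have hdvd : (4 : ℤ) ∣ 210 := by
    rw [hsum]
    refine Finset.dvd_sum fun v _ => ?_
    exact Dvd.dvd.mul_right (by exact_mod_cast hdeg v) _
  norm_num at hdvd

/-- The graph `K_{5,5}` minus a perfect matching: the vertices `0, ..., 4` form one side,
`5, ..., 9` the other, and `i` is joined to every vertex of the other side except `i + 5`. -/
def K55 : SimpleGraph (Fin 10) where
  Adj u v := (u.val < 5 ∧ 5 ≤ v.val ∧ v.val ≠ u.val + 5) ∨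
    (v.val < 5 ∧ 5 ≤ u.val ∧ u.val ≠ v.val + 5)
  symm := ⟨fun _ _ h => h.symm⟩
  loopless := ⟨fun u h => by omega⟩

instance : DecidableRel K55.Adj := fun u v => by
  unfold K55; infer_instance

/-- A graceful labelling of `K55`. -/
def lab : Fin 10 → ℕ := ![0, 9, 6, 4, 14, 7, 20, 19, 18, 17]

theorem K55_card : K55.edgeFinset.card = 20 := by decide +kernel

theorem K55_degree : ∀ v, K55.degree v = 4 := by decide +kernel

theorem K55_ncard : K55.edgeSet.ncard = 20 := by
  rw [← SimpleGraph.coe_edgeFinset, Set.ncard_coe_finset, K55_card]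

theorem lab_inj : Function.Injective lab := by decide +kernel

theorem lab_le : ∀ v, lab v ≤ 20 := by decide +kernel

theorem image_lab : K55.edgeFinset.image (edgeLabel lab) = Finset.Icc 1 20 := by decide +kernel

theorem lab_beta : IsBetaValuation K55 lab := by
  refine ⟨lab_inj, by rw [K55_ncard]; exact lab_le, ?_⟩
  rw [K55_ncard]
  have hinj : Set.InjOn (edgeLabel lab) (K55.edgeFinset : Set (Sym2 (Fin 10))) := by
    rw [← Finset.card_image_iff, image_lab, K55_card]
    simp
  rw [SimpleGraph.coe_edgeFinset] at hinj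
  have himg : edgeLabel lab '' K55.edgeSet = Set.Icc 1 20 := by
    have := congrArg (fun s : Finset ℕ => (s : Set ℕ)) image_lab
    simpa [Finset.coe_image] using this
  rw [← himg]
  exact hinj.bijOn_image

theorem K55_bip : K55.IsBipartite := by
  refine ⟨SimpleGraph.Coloring.mk (fun v => if v.val < 5 then 0 else 1) ?_⟩
  intro u v h
  have h' : (u.val < 5 ∧ 5 ≤ v.val ∧ v.val ≠ u.val + 5) ∨
    (v.val < 5 ∧ 5 ≤ u.val ∧ u.val ≠ v.val + 5) := h
  rcases h' with ⟨h1, h2, -⟩ | ⟨h1, h2, -⟩
  · have : ¬ v.val < 5 := by omega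
    simp [h1, this]
  · have : ¬ u.val < 5 := by omega
    simp [h1, this]

theorem K55_conn : K55.Connected := by
  have hr : ∀ u v : Fin 10, ∃ w x : Fin 10, (K55.Adj u w ∧ K55.Adj w v) ∨
      (K55.Adj u w ∧ K55.Adj w x ∧ K55.Adj x v) := by decide +kernel
  refine ⟨fun u v => ?_⟩
  obtain ⟨w, x, h | h⟩ := hr u v
  · exact h.1.reachable.trans h.2.reachable
  · exact h.1.reachable.trans (h.2.1.reachable.trans h.2.2.reachable)

/-- There is a connected bipartite graph on `10` vertices, with `20` edges and with all degrees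
equal to `4` (so with no isolated vertices), that has a beta-valuation but no near
alpha-valuation. -/
theorem result : ∃ G : SimpleGraph (Fin 10),
    G.IsBipartite ∧ G.Connected ∧ (∀ v, (G.neighborSet v).ncard = 4) ∧
    G.edgeSet.ncard = 20 ∧
    (∃ b : Fin 10 → ℕ, IsBetaValuation G b) ∧
    ¬ ∃ b : Fin 10 → ℕ, IsNearAlphaValuation G b := by
  refine ⟨K55, K55_bip, K55_conn, fun v => ?_, K55_ncard, ⟨lab, lab_beta⟩, ?_⟩
  · rw [← SimpleGraph.coe_neighborFinset, Set.ncard_coe_finset,
      SimpleGraph.card_neighborFinset_eq_degree, K55_degree]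
  · exact no_nearAlpha K55 (fun v => by rw [K55_degree]) K55_card

end Pool.Agent.Results.MP_cfde94_co.GracefulNotNearAlpha
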